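import Pool.Agent.H763R2.An.Re

/-! Inscribed squares in Jordan curves lying between the perpendiculars to a chord at its end
points, the line of the chord meeting the curve at these end points only. No regularity. -/

namespace Pool.Agent.Results.MP_5a3ebe_gt.AxisStrip

/-- Let `C` be a Jordan curve contained in the strip `|Im z| ≤ 1`, with points on both sides of the
imaginary axis, meeting the imaginary axis only at `i` and `-i` (so at both).
Suppose that at `-i` one of the following holds: arbitrarily near `-i` there is a point `z ≠ -i`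
of `C` seen from `-i` at an angle of at least 45 degrees with the axis; or near `-i` the curve
avoids the open sector with apex `-i` spanned by `k + i` and `-(1 - k) + i` for some `k ∈ [0, 1]`;
or `C` has on each side of the axis a point seen from `-i` at an angle of at least 45 degrees
with the axis. Suppose the same at `i`. Then `C` contains the four vertices of a square. -/
theorem result (γ : Circle → ℂ) (hγ : Continuous γ) (hinj : Function.Injective γ)
    (hstrip : ∀ z ∈ Set.range γ, |z.im| ≤ 1)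
    (haxis : ∀ z ∈ Set.range γ, z.re = 0 → z = Complex.I ∨ z = -Complex.I)
    (hright : ∃ z ∈ Set.range γ, 0 < z.re) (hleft : ∃ z ∈ Set.range γ, z.re < 0)
    (hbot : (∀ ε > 0, ∃ z ∈ Set.range γ, z ≠ -Complex.I ∧ ‖z + Complex.I‖ < ε ∧
        1 + z.im ≤ |z.re|) ∨
      (∃ k ∈ Set.Icc (0 : ℝ) 1, ∃ ε > 0, ∀ z ∈ Set.range γ, ‖z + Complex.I‖ < ε →
        z.re ≤ -((1 - k) * (1 + z.im)) ∨ k * (1 + z.im) ≤ z.re) ∨
      (∃ z ∈ Set.range γ, ∃ a ∈ Set.range γ, z.re * a.re < 0 ∧ 1 + z.im ≤ |z.re| ∧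
        1 + a.im ≤ |a.re|))
    (htop : (∀ ε > 0, ∃ z ∈ Set.range γ, z ≠ Complex.I ∧ ‖z - Complex.I‖ < ε ∧
        1 - z.im ≤ |z.re|) ∨
      (∃ k ∈ Set.Icc (0 : ℝ) 1, ∃ ε > 0, ∀ z ∈ Set.range γ, ‖z - Complex.I‖ < ε →
        z.re ≤ -((1 - k) * (1 - z.im)) ∨ k * (1 - z.im) ≤ z.re) ∨
      (∃ z ∈ Set.range γ, ∃ a ∈ Set.range γ, z.re * a.re < 0 ∧ 1 - z.im ≤ |z.re| ∧
        1 - a.im ≤ |a.re|)) :
    ∃ z w : ℂ, w ≠ 0 ∧ z ∈ Set.range γ ∧ z + w ∈ Set.range γ ∧
      z + w + Complex.I * w ∈ Set.range γ ∧ z + Complex.I * w ∈ Set.range γ := by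
  by_contra hcon
  exact H763R2.An.strip_main
    ⟨H763R2.An.lp γ, H763R2.An.lp_loop hγ, H763R2.An.lp_inj hinj, H763R2.An.lp_range⟩
    hstrip haxis hright hleft hbot (H763R2.An.CondP.flip htop) hcon

end Pool.Agent.Results.MP_5a3ebe_gt.AxisStrip
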