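import Mathlib
import Pool.Agent.H145R2.TRobust

/-!
# Jordan curves which are locally graphs over a foliation, and all curves near them

`γ` is a Jordan curve (continuous, `1`-periodic, injective on `[0, 1)`).  Suppose that every point
`γ τ` has a neighbourhood with a real function `φ` of class `C^{1,1}` (differentiable with Lipschitz
differential, for instance `C²`), whose differential does not vanish at `γ τ`, such that `φ ∘ γ` is
monotone (not necessarily strictly) near `τ`.  Then `γ`, and moreover every Jordan curve `γ'` which is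
uniformly close enough to `γ` (with no regularity at all), contains the vertices of a square.

For linear `φ` and strict monotonicity these `γ` are the locally monotone curves of Stromquist; for
`φ = arg (z - O)` one gets all curves with star-shaped interior.  No rectifiability or Lipschitz
condition is assumed.
-/

namespace Pool.Agent.Results.MP_5a3ebe_gt.LocalGraph

open Set Filter Topology

/-- Injectivity on a period, in the form used in the proof. -/
lemma jor_of {γ : ℝ → ℂ} (hγ : Continuous γ) (hper : ∀ t, γ (t + 1) = γ t) 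
    (hinj : InjOn γ (Ico 0 1)) : H145R2.TSq.Jor γ := by
  have hfr : ∀ s, γ s = γ (Int.fract s) := by
    intro s
    have hperz : Function.Periodic γ 1 := hper
    have := hperz.sub_zsmul_eq (x := s) ⌊s⌋
    rw [← this]
    congr 1
    show s - ⌊s⌋ • (1:ℝ) = s - ⌊s⌋
    rw [zsmul_eq_mul, mul_one]
  refine ⟨hγ, hper, ?_⟩
  intro s t hst
  rw [hfr s, hfr t] at hst
  have h := hinj ⟨Int.fract_nonneg s, Int.fract_lt_one s⟩ ⟨Int.fract_nonneg t, Int.fract_lt_one t⟩ hst
  refine ⟨⌊s⌋ - ⌊t⌋, ?_⟩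
  have h1 := Int.self_sub_floor s
  have h2 := Int.self_sub_floor t
  push_cast
  linarith

theorem result (γ : ℝ → ℂ) (hγ : Continuous γ) (hper : ∀ t, γ (t + 1) = γ t) 
    (hinj : InjOn γ (Ico 0 1)) 
    (hloc : ∀ τ : ℝ, ∃ φ : ℂ → ℝ, ∃ U ∈ 𝓝 (γ τ), ∃ K : NNReal, 
      (∀ z ∈ U, DifferentiableAt ℝ φ z) ∧ LipschitzOnWith K (fderiv ℝ φ) U ∧ 
      fderiv ℝ φ (γ τ) ≠ 0 ∧ 
      ∃ ε > 0, MonotoneOn (fun t => φ (γ t)) (Ioo (τ - ε) (τ + ε))) : 
    ∃ ε > 0, ∀ γ' : ℝ → ℂ, Continuous γ' → (∀ t, γ' (t + 1) = γ' t) → InjOn γ' (Ico 0 1) → 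
      (∀ t, ‖γ' t - γ t‖ ≤ ε) → 
      ∃ z w : ℂ, w ≠ 0 ∧ z ∈ range γ' ∧ z + w ∈ range γ' ∧ z + w + Complex.I * w ∈ range γ' ∧ 
        z + Complex.I * w ∈ range γ' := by
  obtain ⟨ε, hε, h⟩ := H145R2.TSq.main_robust (jor_of hγ hper hinj) hloc
  exact ⟨ε, hε, fun γ' h1 h2 h3 h4 => h γ' (jor_of h1 h2 h3) h4⟩

end Pool.Agent.Results.MP_5a3ebe_gt.LocalGraph
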