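import Pool.Agent.H763R2.An.Re

/-! Inscribed squares in Jordan curves: along every loop of chords, the pair of signed distances
of the two remaining vertices of the squares on the chords winds an odd number of times around the
origin, unless the curve has an inscribed square. -/

namespace Pool.Agent.Results.MP_5a3ebe_gt.OddWinding

open Classical in
/-- The signed distance of `z` to the closed curve `c` (of period `1`): the distance of `z` to the
curve if the curve winds an odd number `n` of times around `z` (there is a continuous logarithm `k`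
of `c - z` with `k 1 - k 0 = 2 π n i`), and minus the distance otherwise. -/
noncomputable def sdist (c : ℝ → ℂ) (z : ℂ) : ℝ :=
  if ∃ n : ℤ, (∃ k : ℝ → ℂ, Continuous k ∧ (∀ t, Complex.exp (k t) = c t - z) ∧
      k 1 - k 0 = n * (2 * Real.pi * Complex.I)) ∧ Odd n
  then Metric.infDist z (Set.range c) else -Metric.infDist z (Set.range c)

/-- Let `C` be a Jordan curve parametrised by `c : ℝ → ℂ` of period `1`. Let `x, y` be continuous
on `[0, 1]` with `x < y < x + 1` and `(x, y)(1) = (x, y)(0) + (1, 1)`; for `A = c (x s)`,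
`B = c (y s)` let `D = A + i(B - A)` and `E = B + i(B - A)` be the other two vertices of the square
on the left of the chord `AB`. If the signed distances of `D` and `E` to `C` are `r s * cos (θ s)`
and `r s * sin (θ s)`, with `r ≥ 0` and `θ` continuous on `[0, 1]`, and `θ 1 - θ 0 = 2 π n` with
`n` even, then `C` contains the four vertices of a square. -/
theorem result (c : ℝ → ℂ) (hc : Continuous c) (hper : ∀ t, c (t + 1) = c t)
    (hinj : Set.InjOn c (Set.Ico 0 1)) (x y : ℝ → ℝ) (hx : ContinuousOn x (Set.Icc 0 1))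
    (hy : ContinuousOn y (Set.Icc 0 1)) (hxy : ∀ s ∈ Set.Icc (0 : ℝ) 1, x s < y s ∧ y s < x s + 1)
    (hend : x 1 = x 0 + 1 ∧ y 1 = y 0 + 1) (θ r : ℝ → ℝ) (hθ : ContinuousOn θ (Set.Icc 0 1))
    (hpol : ∀ s ∈ Set.Icc (0 : ℝ) 1, 0 ≤ r s ∧
      sdist c (c (x s) + Complex.I * (c (y s) - c (x s))) = r s * Real.cos (θ s) ∧
      sdist c (c (y s) + Complex.I * (c (y s) - c (x s))) = r s * Real.sin (θ s))
    (n : ℤ) (hn : Even n) (hwind : θ 1 - θ 0 = 2 * Real.pi * n) :
    ∃ z w : ℂ, w ≠ 0 ∧ z ∈ Set.range c ∧ z + w ∈ Set.range c ∧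
      z + w + Complex.I * w ∈ Set.range c ∧ z + Complex.I * w ∈ Set.range c := by
  by_contra hcon
  have hπ := Real.pi_pos
  have L : H763R2.An.Loop c := ⟨hc, hper⟩
  have J : H763R2.An.Inj c := by
    intro x y hx hy h
    have e : ∀ t, c (Int.fract t) = c t := fun t => by
      have := L.per_int (Int.fract t) ⌊t⌋
      rw [Int.fract_add_floor] at this
      exact this.symm
    have h3 := hinj ⟨Int.fract_nonneg x, Int.fract_lt_one x⟩
      ⟨Int.fract_nonneg y, Int.fract_lt_one y⟩ (by rw [e, e, h])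
    obtain ⟨n, hn⟩ := Int.fract_eq_fract.1 h3
    have h4 : (n : ℝ) < 0 := by rw [← hn]; linarith
    have h5 : (-1 : ℝ) < n := by rw [← hn]; linarith
    have h6 : n < 0 := by exact_mod_cast h4
    have h7 : -1 < n := by exact_mod_cast h5
    omega
  obtain ⟨Θ, g, A, ho⟩ := H763R2.An.exists_odd L J hcon
  obtain ⟨cl, hcl⟩ : ∃ cl : ℝ → ℝ, cl = fun s => max 0 (min 1 s) := ⟨_, rfl⟩
  have ccl : Continuous cl := by rw [hcl]; fun_prop
  have m : ∀ s, cl s ∈ Set.Icc (0:ℝ) 1 := fun s => by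
    rw [hcl]; exact ⟨le_max_left _ _, max_le zero_le_one (min_le_left _ _)⟩
  have cl0 : cl 0 = 0 := by simp [hcl]
  have cl1 : cl 1 = 1 := by simp [hcl]
  have cθ : Continuous fun s => θ (cl s) := hθ.comp_continuous ccl m
  have cx : Continuous fun s => x (cl s) := hx.comp_continuous ccl m
  have cy : Continuous fun s => y (cl s) := hy.comp_continuous ccl m
  have cΘ : Continuous fun s => Θ (x (cl s)) (y (cl s)) :=
    A.path (p := fun s => (x (cl s), y (cl s))) (cx.prodMk cy)
      (fun s => ⟨(hxy _ (m s)).1, (hxy _ (m s)).2⟩)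
  obtain ⟨Φ, hΦ⟩ : ∃ Φ : ℝ → ℝ, Φ = fun s => θ (cl s) - Θ (x (cl s)) (y (cl s)) := ⟨_, rfl⟩
  have cΦ : Continuous Φ := by rw [hΦ]; exact cθ.sub cΘ
  have key : ∀ s, Real.cos (Φ s) = 1 := by
    intro s
    obtain ⟨r0, e1, e2⟩ := hpol _ (m s)
    obtain ⟨ρ, hρ, f1, f2⟩ := A.ex _ _ (hxy _ (m s)).1 (hxy _ (m s)).2
    have d1 : c (x (cl s)) + Complex.I * (c (y (cl s)) - c (x (cl s))) =
        H763R2.An.DD c (x (cl s)) (y (cl s)) := by
      unfold H763R2.An.DD H763R2.Sq.Dv; ring
    have d2 : c (y (cl s)) + Complex.I * (c (y (cl s)) - c (x (cl s))) =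
        H763R2.An.CC c (x (cl s)) (y (cl s)) := by
      unfold H763R2.An.CC H763R2.Sq.Cv; ring
    rw [d1] at e1
    rw [d2] at e2
    have g1 : r (cl s) * Real.cos (θ (cl s)) = ρ * Real.cos (Θ (x (cl s)) (y (cl s))) :=
      e1.symm.trans f1
    have g2 : r (cl s) * Real.sin (θ (cl s)) = ρ * Real.sin (Θ (x (cl s)) (y (cl s))) :=
      e2.symm.trans f2
    have s1 := Real.sin_sq_add_cos_sq (θ (cl s))
    have s2 := Real.sin_sq_add_cos_sq (Θ (x (cl s)) (y (cl s)))
    have hsq : r (cl s) ^ 2 = ρ ^ 2 := by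
      calc r (cl s) ^ 2 = (r (cl s) * Real.cos (θ (cl s))) ^ 2 +
            (r (cl s) * Real.sin (θ (cl s))) ^ 2 := by
              rw [mul_pow, mul_pow, ← mul_add, add_comm, s1, mul_one]
        _ = ρ ^ 2 := by rw [g1, g2, mul_pow, mul_pow, ← mul_add, add_comm, s2, mul_one]
    have hr : r (cl s) = ρ := (sq_eq_sq₀ r0 hρ.le).1 hsq
    rw [hr] at g1 g2
    have h1 := mul_left_cancel₀ hρ.ne' g1
    have h2 := mul_left_cancel₀ hρ.ne' g2
    rw [hΦ]
    simp only
    rw [Real.cos_sub, h1, h2]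
    linarith
  have fl := H763R2.Dm.floor_const (ψ := fun s => Φ s + Real.pi) (cΦ.add continuous_const)
    (fun s hh => by
      have := hh.2
      simp only [Real.cos_add_pi, key] at this
      linarith) 0 1
  obtain ⟨k0, hk0⟩ := (Real.cos_eq_one_iff _).1 (key 0)
  obtain ⟨k1, hk1⟩ := (Real.cos_eq_one_iff _).1 (key 1)
  have flr : ∀ k : ℤ, ⌊((k : ℝ) * (2 * Real.pi) + Real.pi) / (2 * Real.pi)⌋ = k := by
    intro k
    rw [Int.floor_eq_iff]
    constructor
    · rw [le_div_iff₀ (by positivity)]; linarith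
    · rw [div_lt_iff₀ (by positivity)]; linarith
  simp only [← hk0, ← hk1, flr] at fl
  have e3 : Φ 0 = Φ 1 := by rw [← hk0, ← hk1, fl]
  rw [hΦ] at e3
  simp only [cl0, cl1, hend.1, hend.2] at e3
  rw [A.per _ _ (hxy 0 (by norm_num)).1 (hxy 0 (by norm_num)).2] at e3
  have e4 : (g : ℝ) * (2 * Real.pi) = n * (2 * Real.pi) := by linarith
  have e5 := mul_right_cancel₀ (by positivity) e4
  have e6 : g = n := by exact_mod_cast e5
  rw [e6] at ho
  exact (Int.not_even_iff_odd.2 ho) hn

end Pool.Agent.Results.MP_5a3ebe_gt.OddWinding
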