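import Pool.Agent.H593R2.Graphs

/-! Inscribed rectangles in Jordan curves formed by the graphs of two arbitrary continuous
functions. -/

open Set

namespace Pool.Agent.Results.MP_5a3ebe_gt.TwoGraphs

/-- Let `f < g` be continuous functions on `[0,1]` (`f < g` inside, equal at `0` and at `1`); so the
set `C` formed by the two graphs over `[0,1]` is a Jordan curve.  Let `A = (0, f 0)`,
`B = (1, f 1)` be the two common endpoints of the graphs, and suppose that for every point `P` of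
the graph of `f` and every point `Q` of the graph of `g` the angles `PAQ` and `PBQ` are at most
`90` degrees (inner products `⟨P - A, Q - A⟩ ≥ 0`, `⟨P - B, Q - B⟩ ≥ 0`).  Then for every `r > 0`
the curve `C` contains the four vertices of a rectangle with side lengths `|w|` and `r |w|`,
`w ≠ 0`; for `r = 1` this is an inscribed square.  -/
theorem result (f g : ℝ → ℝ) (hf : ContinuousOn f (Icc 0 1)) (hg : ContinuousOn g (Icc 0 1))
    (h0 : f 0 = g 0) (h1 : f 1 = g 1) (hlt : ∀ x : ℝ, 0 < x → x < 1 → f x < g x)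
    (hA : ∀ u ∈ Icc (0 : ℝ) 1, ∀ v ∈ Icc (0 : ℝ) 1,
      0 ≤ u * v + (f u - f 0) * (g v - g 0))
    (hB : ∀ u ∈ Icc (0 : ℝ) 1, ∀ v ∈ Icc (0 : ℝ) 1,
      0 ≤ (1 - u) * (1 - v) + (f u - f 1) * (g v - g 1))
    (C : Set ℂ) (hC : C = {z : ℂ | z.re ∈ Icc (0 : ℝ) 1 ∧ (z.im = f z.re ∨ z.im = g z.re)})
    (r : ℝ) (hr : 0 < r) :
    ∃ z w : ℂ, w ≠ 0 ∧ z ∈ C ∧ z + w ∈ C ∧ z + w + r * (Complex.I * w) ∈ C ∧
      z + r * (Complex.I * w) ∈ C := by
  -- extension by constants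
  set F : ℝ → ℝ := IccExtend (zero_le_one' ℝ) ((Icc (0 : ℝ) 1).restrict f) with hF
  set G : ℝ → ℝ := IccExtend (zero_le_one' ℝ) ((Icc (0 : ℝ) 1).restrict g) with hG
  have Fin : ∀ x ∈ Icc (0 : ℝ) 1, F x = f x := fun x hx => by
    rw [hF, IccExtend_of_mem _ _ hx]; rfl
  have Gin : ∀ x ∈ Icc (0 : ℝ) 1, G x = g x := fun x hx => by
    rw [hG, IccExtend_of_mem _ _ hx]; rfl
  have F0 : ∀ x ≤ 0, F x = f 0 := fun x hx => by
    rw [hF, IccExtend_of_le_left _ _ hx]; rfl
  have G0 : ∀ x ≤ 0, G x = f 0 := fun x hx => by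
    rw [hG, IccExtend_of_le_left _ _ hx, h0]; rfl
  have F1 : ∀ x, 1 ≤ x → F x = f 1 := fun x hx => by
    rw [hF, IccExtend_of_right_le _ _ hx]; rfl
  have G1 : ∀ x, 1 ≤ x → G x = f 1 := fun x hx => by
    rw [hG, IccExtend_of_right_le _ _ hx, h1]; rfl
  have hFu : UniformContinuous F :=
    (CompactSpace.uniformContinuous_of_continuous hf.restrict).comp
      (LipschitzWith.projIcc (zero_le_one' ℝ)).uniformContinuous
  have hGu : UniformContinuous G :=
    (CompactSpace.uniformContinuous_of_continuous hg.restrict).comp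
      (LipschitzWith.projIcc (zero_le_one' ℝ)).uniformContinuous
  obtain ⟨M1, hM1⟩ := isCompact_Icc.exists_bound_of_continuousOn hf
  obtain ⟨M2, hM2⟩ := isCompact_Icc.exists_bound_of_continuousOn hg
  have hP : H593R2.Pair F G (f 0) (f 1) (max M1 M2) := by
    refine ⟨hFu, hGu, F0, G0, F1, G1, fun x => ?_, fun x => ?_, fun x hx0 hx1 => ?_⟩
    · exact (hM1 _ (projIcc 0 1 (zero_le_one' ℝ) x).2).trans (le_max_left _ _)
    · exact (hM2 _ (projIcc 0 1 (zero_le_one' ℝ) x).2).trans (le_max_right _ _)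
    · rw [Fin x ⟨hx0.le, hx1.le⟩, Gin x ⟨hx0.le, hx1.le⟩]
      exact hlt x hx0 hx1
  have hA' : ∀ u v : ℝ, 0 ≤ u → 0 ≤ v → 0 ≤ u * v + (F u - f 0) * (G v - f 0) := by
    intro u v hu hv
    have e1 : F u = f (min u 1) := by
      rcases le_total u 1 with h | h
      · rw [Fin u ⟨hu, h⟩, min_eq_left h]
      · rw [F1 u h, min_eq_right h]
    have e2 : G v = g (min v 1) := by
      rcases le_total v 1 with h | h
      · rw [Gin v ⟨hv, h⟩, min_eq_left h]
      · rw [G1 v h, min_eq_right h, h1]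
    have := hA (min u 1) ⟨le_min hu zero_le_one, min_le_right _ _⟩ (min v 1)
      ⟨le_min hv zero_le_one, min_le_right _ _⟩
    rw [← h0] at this
    rw [e1, e2]
    have h2 : min u 1 * min v 1 ≤ u * v :=
      mul_le_mul (min_le_left _ _) (min_le_left _ _) (le_min hv zero_le_one) hu
    linarith
  have hB' : ∀ u v : ℝ, u ≤ 1 → v ≤ 1 → 0 ≤ (1 - u) * (1 - v) + (F u - f 1) * (G v - f 1) := by
    intro u v hu hv
    have e1 : F u = f (max u 0) := by
      rcases le_total 0 u with h | h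
      · rw [Fin u ⟨h, hu⟩, max_eq_left h]
      · rw [F0 u h, max_eq_right h]
    have e2 : G v = g (max v 0) := by
      rcases le_total 0 v with h | h
      · rw [Gin v ⟨h, hv⟩, max_eq_left h]
      · rw [G0 v h, max_eq_right h, h0]
    have := hB (max u 0) ⟨le_max_right _ _, max_le hu zero_le_one⟩ (max v 0)
      ⟨le_max_right _ _, max_le hv zero_le_one⟩
    rw [← h1] at this
    rw [e1, e2]
    have k1 : 1 - max u 0 ≤ 1 - u := by linarith [le_max_left u 0]
    have k2 : 1 - max v 0 ≤ 1 - v := by linarith [le_max_left v 0]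
    have h2 : (1 - max u 0) * (1 - max v 0) ≤ (1 - u) * (1 - v) :=
      mul_le_mul k1 k2 (by linarith [max_le hv (zero_le_one' ℝ)]) (by linarith)
    linarith
  obtain ⟨t, a, b, hab, ⟨m1, m2, m3, m4⟩, y2, y3, y4⟩ := hP.exists_rect_in hr hA' hB'
  refine ⟨⟨t, F t⟩, ⟨a, b⟩, ?_, ?_, ?_, ?_, ?_⟩
  · intro h
    exact hab ⟨congrArg Complex.re h, congrArg Complex.im h⟩
  · rw [hC]
    exact ⟨m1, Or.inl (Fin t m1)⟩
  · rw [hC]
    refine ⟨m2, Or.inl ?_⟩
    show F t + b = f (t + a)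
    rw [← Fin _ m2, y2]
  · rw [hC]
    have e1 : ((⟨t, F t⟩ : ℂ) + ⟨a, b⟩ + r * (Complex.I * ⟨a, b⟩)).re = t + a - r * b := by
      simp; ring
    have e2 : ((⟨t, F t⟩ : ℂ) + ⟨a, b⟩ + r * (Complex.I * ⟨a, b⟩)).im = F t + b + r * a := by
      simp
    refine ⟨by rw [e1]; exact m3, Or.inr ?_⟩
    rw [e1, e2, ← Gin _ m3, y3]
  · rw [hC]
    have e1 : ((⟨t, F t⟩ : ℂ) + r * (Complex.I * ⟨a, b⟩)).re = t - r * b := by
      simp; ring
    have e2 : ((⟨t, F t⟩ : ℂ) + r * (Complex.I * ⟨a, b⟩)).im = F t + r * a := by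
      simp
    refine ⟨by rw [e1]; exact m4, Or.inr ?_⟩
    rw [e1, e2, ← Gin _ m4, y4]

end Pool.Agent.Results.MP_5a3ebe_gt.TwoGraphs
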